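import Mathlib

/-!
# A Bowen function far from all Walters functions: the combinatorial part
-/

noncomputable section

namespace Pool.Agent.Q67.BW

open Finset Filter Topology

variable {A : Type*} (o l : A)

/-- `x` starts with `l ^ j o ^ k l l` -/
def Pat (k j : ℕ) (x : ℕ → A) : Prop :=
  (∀ i < j, x i = l) ∧ (∀ i < k, x (j + i) = o) ∧ x (j + k) = l ∧ x (j + k + 1) = l

/-- the admissible patterns -/
def Good (x : ℕ → A) (p : ℕ × ℕ) : Prop := 1 ≤ p.2 ∧ p.2 ≤ p.1 ∧ 2 ≤ p.1 ∧ Pat o l p.1 p.2 x

variable {o l}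

lemma Pat.unique (hol : o ≠ l) {k j k' j' : ℕ} {x : ℕ → A} (h : Pat o l k j x)
    (h' : Pat o l k' j' x) (hk : 1 ≤ k) (hk' : 1 ≤ k') : k = k' ∧ j = j' := by
  have hj : j = j' := by
    rcases lt_trichotomy j j' with h1 | h1 | h1
    · have e1 := h.2.1 0 (by omega)
      have e2 := h'.1 j h1
      rw [add_zero] at e1
      exact absurd (e1.symm.trans e2) hol
    · exact h1
    · have e1 := h'.2.1 0 (by omega)
      have e2 := h.1 j' h1
      rw [add_zero] at e1
      exact absurd (e1.symm.trans e2) hol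
  subst hj
  refine ⟨?_, rfl⟩
  rcases lt_trichotomy k k' with h1 | h1 | h1
  · have e1 := h'.2.1 k h1
    have e2 := h.2.2.1
    exact absurd (e1.symm.trans e2) hol
  · exact h1
  · have e1 := h.2.1 k' h1
    have e2 := h'.2.2.1
    exact absurd (e1.symm.trans e2) hol

lemma Good.unique (hol : o ≠ l) {x : ℕ → A} {p q : ℕ × ℕ} (h : Good o l x p) (h' : Good o l x q) :
    p = q := by
  have := Pat.unique hol h.2.2.2 h'.2.2.2 (by have := h.2.2.1; omega) (by have := h'.2.2.1; omega)
  exact Prod.ext this.1 this.2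

open Classical in
/-- the function -/
def fn (o l : A) (x : ℕ → A) : ℝ := if h : ∃ p, Good o l x p then 1 / (h.choose.1 : ℝ) else 0

lemma fn_good (hol : o ≠ l) {x : ℕ → A} {p : ℕ × ℕ} (h : Good o l x p) : fn o l x = 1 / (p.1 : ℝ) := by
  have hex : ∃ p, Good o l x p := ⟨p, h⟩
  unfold fn
  rw [dif_pos hex, Good.unique hol hex.choose_spec h]

lemma fn_bad {x : ℕ → A} (h : ∀ p, ¬ Good o l x p) : fn o l x = 0 := by
  unfold fn
  rw [dif_neg (by push Not; exact h)]

lemma fn_nonneg (x : ℕ → A) : 0 ≤ fn o l x := by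
  unfold fn
  split_ifs
  · positivity
  · exact le_rfl

lemma fn_le (hol : o ≠ l) (x : ℕ → A) : fn o l x ≤ 1/2 := by
  by_cases h : ∃ p, Good o l x p
  · obtain ⟨p, hp⟩ := h
    rw [fn_good hol hp]
    have h2 : (2:ℝ) ≤ p.1 := by exact_mod_cast hp.2.2.1
    exact one_div_le_one_div_of_le (by norm_num) h2
  · push Not at h
    rw [fn_bad h]; norm_num

lemma fn_ne (_hol : o ≠ l) {x : ℕ → A} (h : x 0 ≠ l) : fn o l x = 0 := by
  apply fn_bad
  intro p hp
  exact h (hp.2.2.2.1 0 hp.1)

/-- shifts -/
def sh (i : ℕ) (x : ℕ → A) : ℕ → A := fun n => x (n + i)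

lemma Pat.shift {k j i : ℕ} {x : ℕ → A} (h : Pat o l k j x) (hi : i ≤ j) : Pat o l k (j - i) (sh i x) := by
  refine ⟨fun t ht => ?_, fun t ht => ?_, ?_, ?_⟩
  · exact h.1 _ (by omega)
  · show x (j - i + t + i) = o
    rw [show j - i + t + i = j + t by omega]
    exact h.2.1 t ht
  · show x (j - i + k + i) = l
    rw [show j - i + k + i = j + k by omega]
    exact h.2.2.1
  · show x (j - i + k + 1 + i) = l
    rw [show j - i + k + 1 + i = j + k + 1 by omega]
    exact h.2.2.2

lemma Good.shift {x : ℕ → A} {p : ℕ × ℕ} {i : ℕ} (h : Good o l x p) (hi : i < p.2) :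
    Good o l (sh i x) (p.1, p.2 - i) := by
  have h2 := h.2.1
  exact ⟨by show 1 ≤ p.2 - i; omega, by show p.2 - i ≤ p.1; omega, h.2.2.1, h.2.2.2.shift hi.le⟩

/-- patterns seen in a window -/
lemma Good.congr {x y : ℕ → A} {p : ℕ × ℕ} {N : ℕ} (h : Good o l x p) (hN : p.1 + p.2 + 2 ≤ N)
    (hxy : ∀ i < N, x i = y i) : Good o l y p := by
  refine ⟨h.1, h.2.1, h.2.2.1, fun t ht => ?_, fun t ht => ?_, ?_, ?_⟩
  · rw [← hxy _ (by omega)]; exact h.2.2.2.1 t ht
  · rw [← hxy _ (by omega)]; exact h.2.2.2.2.1 t ht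
  · rw [← hxy _ (by omega)]; exact h.2.2.2.2.2.1
  · rw [← hxy _ (by omega)]; exact h.2.2.2.2.2.2

lemma fn_close (hol : o ≠ l) {x y : ℕ → A} {N : ℕ} (hN : 1 ≤ N) (hxy : ∀ i < 2 * N + 2, x i = y i) :
    fn o l x ≤ fn o l y + 1 / (N : ℝ) := by
  by_cases h : ∃ p, Good o l x p
  · obtain ⟨p, hp⟩ := h
    rw [fn_good hol hp]
    rcases le_or_gt p.1 N with h1 | h1
    · have h2 := hp.2.1
      rw [fn_good hol (hp.congr (N := 2 * N + 2) (by omega) hxy)]
      have : (0:ℝ) ≤ 1 / N := by positivity
      linarith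
    · have h2 : (N:ℝ) ≤ p.1 := by exact_mod_cast h1.le
      have h3 : 1 / (p.1:ℝ) ≤ 1 / N := one_div_le_one_div_of_le (by exact_mod_cast hN) h2
      linarith [fn_nonneg (o := o) (l := l) y]
  · push Not at h
    rw [fn_bad h]
    have := fn_nonneg (o := o) (l := l) y
    positivity

lemma fn_cont [TopologicalSpace A] [DiscreteTopology A] (hol : o ≠ l) : Continuous (fn o l) := by
  rw [Metric.continuous_iff']
  intro x ε hε
  obtain ⟨N, hN⟩ := exists_nat_gt (1 / ε)
  have hN0 : (0:ℝ) < N := lt_trans (by positivity) hN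
  have hN1 : 1 ≤ N := by exact_mod_cast hN0
  have hN2 : 1 / (N:ℝ) < ε := by
    rw [div_lt_comm₀ hN0 hε]; exact hN
  have hU : ∀ᶠ y : ℕ → A in 𝓝 x, ∀ i ∈ Finset.range (2 * N + 2), y i = x i := by
    rw [Filter.eventually_all_finset]
    intro i _
    have hc : Continuous (fun y : ℕ → A => y i) := continuous_apply i
    have := hc.tendsto x
    rw [nhds_discrete A, tendsto_pure] at this
    exact this
  filter_upwards [hU] with y hy
  have h1 : ∀ i < 2 * N + 2, x i = y i := fun i hi => (hy i (Finset.mem_range.2 hi)).symm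
  have h2 := fn_close hol hN1 h1
  have h3 := fn_close hol hN1 (fun i hi => (h1 i hi).symm)
  rw [Real.dist_eq, abs_sub_lt_iff]
  constructor <;> linarith

/-- the sums -/
def SS (o l : A) (n : ℕ) (x : ℕ → A) : ℝ := ∑ i ∈ range n, fn o l (sh i x)

lemma sh_sh (i j : ℕ) (x : ℕ → A) : sh i (sh j x) = sh (i + j) x := by
  funext n; show x (n + i + j) = x (n + (i + j)); rw [add_assoc]

/-- the contribution of the unfinished patterns -/
lemma tail_le (hol : o ≠ l) (x : ℕ → A) (n : ℕ) (E : Finset ℕ) (hE : ∀ i ∈ E, i < n ∧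
    ∃ p, Good o l (sh i x) p ∧ n < i + p.1 + p.2 + 2) : ∑ i ∈ E, fn o l (sh i x) ≤ 2 := by
  classical
  rcases E.eq_empty_or_nonempty with h | h
  · rw [h]; simp
  set i0 := E.min' h with hi0
  obtain ⟨hi0n, p, hp, hn⟩ := hE i0 (E.min'_mem h)
  have hsub : E ⊆ Finset.Ico i0 (i0 + p.2) ∪ {i0 + p.2 + p.1} := by
    intro i hi
    obtain ⟨hin, q, hq, _⟩ := hE i hi
    have h1 : i0 ≤ i := E.min'_le i hi
    rw [Finset.mem_union, Finset.mem_Ico, Finset.mem_singleton]
    by_contra hcon
    push Not at hcon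
    have h2 : i0 + p.2 ≤ i := by
      by_contra h3; push Not at h3; exact absurd h3 (by have := hcon.1 h1; omega)
    have h3 : i < i0 + p.2 + p.1 := by
      have := hcon.2
      omega
    -- the letter at i is o
    have h4 : x i = o := by
      have := hp.2.2.2.2.1 (i - i0 - p.2) (by omega)
      have e : x (p.2 + (i - i0 - p.2) + i0) = o := this
      rwa [show p.2 + (i - i0 - p.2) + i0 = i by omega] at e
    have h5 : x i = l := by
      have := hq.2.2.2.1 0 hq.1
      have e : x (0 + i) = l := this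
      rwa [zero_add] at e
    exact hol (h4.symm.trans h5)
  have hpos : 0 < (p.1 : ℝ) := by
    have := hp.2.2.1
    have : 0 < p.1 := by omega
    exact_mod_cast this
  have h1 : ∑ i ∈ Finset.Ico i0 (i0 + p.2), fn o l (sh i x) ≤ 1 := by
    have h2 : ∀ i ∈ Finset.Ico i0 (i0 + p.2), fn o l (sh i x) = 1 / (p.1 : ℝ) := by
      intro i hi
      rw [Finset.mem_Ico] at hi
      have h3 : Good o l (sh (i - i0) (sh i0 x)) (p.1, p.2 - (i - i0)) := hp.shift (by omega)
      rw [sh_sh, show i - i0 + i0 = i by omega] at h3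
      have h4 := fn_good hol h3
      exact h4
    rw [Finset.sum_congr rfl h2, Finset.sum_const, nsmul_eq_mul, Nat.card_Ico,
      show i0 + p.2 - i0 = p.2 by omega, mul_one_div, div_le_one hpos]
    exact_mod_cast hp.2.1
  calc ∑ i ∈ E, fn o l (sh i x)
      ≤ ∑ i ∈ Finset.Ico i0 (i0 + p.2) ∪ {i0 + p.2 + p.1}, fn o l (sh i x) :=
        Finset.sum_le_sum_of_subset_of_nonneg hsub (fun _ _ _ => fn_nonneg _)
    _ ≤ ∑ i ∈ Finset.Ico i0 (i0 + p.2), fn o l (sh i x) + ∑ i ∈ {i0 + p.2 + p.1}, fn o l (sh i x) := by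
        have := Finset.sum_union_inter (s₁ := Finset.Ico i0 (i0 + p.2)) (s₂ := {i0 + p.2 + p.1})
          (f := fun i => fn o l (sh i x))
        have h4 : 0 ≤ ∑ i ∈ Finset.Ico i0 (i0 + p.2) ∩ {i0 + p.2 + p.1}, fn o l (sh i x) :=
          Finset.sum_nonneg fun _ _ => fn_nonneg _
        linarith
    _ ≤ 1 + 1/2 := by
        rw [Finset.sum_singleton]
        exact add_le_add h1 (fn_le hol _)
    _ ≤ 2 := by norm_num

/-- **Bowen's condition**, one side -/
theorem bowen (hol : o ≠ l) {n : ℕ} {x y : ℕ → A} (hxy : ∀ i < n, x i = y i) :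
    SS o l n x ≤ SS o l n y + 2 := by
  classical
  set E : Finset ℕ := (range n).filter (fun i => ∃ p, Good o l (sh i x) p ∧ n < i + p.1 + p.2 + 2)
    with hE
  have h1 := tail_le hol x n E (fun i hi => by
    rw [hE, Finset.mem_filter, Finset.mem_range] at hi; exact hi)
  have h2 : ∑ i ∈ (range n).filter (fun i => ¬ ∃ p, Good o l (sh i x) p ∧ n < i + p.1 + p.2 + 2),
      fn o l (sh i x) ≤ SS o l n y := by
    calc _ ≤ ∑ i ∈ (range n).filter (fun i => ¬ ∃ p, Good o l (sh i x) p ∧ n < i + p.1 + p.2 + 2),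
          fn o l (sh i y) := by
          refine Finset.sum_le_sum fun i hi => ?_
          rw [Finset.mem_filter, Finset.mem_range] at hi
          by_cases h : ∃ p, Good o l (sh i x) p
          · obtain ⟨p, hp⟩ := h
            have h3 : i + p.1 + p.2 + 2 ≤ n := by
              by_contra hcon
              push Not at hcon
              exact hi.2 ⟨p, hp, hcon⟩
            have h4 : Good o l (sh i y) p := hp.congr (N := p.1 + p.2 + 2) le_rfl
              (fun t ht => hxy _ (by omega))
            rw [fn_good hol hp, fn_good hol h4]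
          · push Not at h
            rw [fn_bad h]; exact fn_nonneg _
      _ ≤ _ := Finset.sum_le_sum_of_subset_of_nonneg (Finset.filter_subset _ _)
          (fun _ _ _ => fn_nonneg _)
  have h3 := Finset.sum_filter_add_sum_filter_not (range n)
    (fun i => ∃ p, Good o l (sh i x) p ∧ n < i + p.1 + p.2 + 2) (fun i => fn o l (sh i x))
  unfold SS at *
  rw [← h3]
  linarith

/-! ### the three periodic sequences -/

/-- `(o^k l^k)^∞` -/
def xa (o l : A) (k : ℕ) : ℕ → A := fun n => if n % (2 * k) < k then o else l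

/-- the word `o^k l o l` -/
def wb (o l : A) (k r : ℕ) : A := if r < k then o else if r = k + 1 then o else l

/-- `(o^k l o l)^∞` -/
def xb (o l : A) (k : ℕ) : ℕ → A := fun n => wb o l k (n % (k + 3))

/-- the word `o^k l^k o^k l o l` -/
def wc (o l : A) (k r : ℕ) : A := if r < 2 * k then (if r < k then o else l) else wb o l k (r - 2 * k)

/-- `(o^k l^k o^k l o l)^∞` -/
def xc (o l : A) (k : ℕ) : ℕ → A := fun n => wc o l k (n % (3 * k + 3))

lemma mod_lt_self {n m : ℕ} (h : n < m) : n % m = n := Nat.mod_eq_of_lt h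

lemma mod_sub_self {n m : ℕ} (h : m ≤ n) (h2 : n < 2 * m) : n % m = n - m := by
  rw [Nat.mod_eq_sub_mod h, Nat.mod_eq_of_lt (by omega)]

lemma xa_per (o l : A) (k : ℕ) : sh (2 * k) (xa o l k) = xa o l k := by
  funext n; show (if (n + 2 * k) % (2 * k) < k then o else l) = _
  rw [Nat.add_mod_right]; rfl

lemma xb_per (o l : A) (k : ℕ) : sh (k + 3) (xb o l k) = xb o l k := by
  funext n; show wb o l k ((n + (k + 3)) % (k + 3)) = _
  rw [Nat.add_mod_right]; rfl

lemma xc_per (o l : A) (k : ℕ) : sh (3 * k + 3) (xc o l k) = xc o l k := by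
  funext n; show wc o l k ((n + (3 * k + 3)) % (3 * k + 3)) = _
  rw [Nat.add_mod_right]; rfl

lemma SS_xa (hol : o ≠ l) {k : ℕ} (hk : 2 ≤ k) : 1 ≤ SS o l (2 * k) (xa o l k) := by
  have h1 : ∀ i ∈ Finset.Ico k (2 * k), fn o l (sh i (xa o l k)) = 1 / (k : ℝ) := by
    intro i hi
    rw [Finset.mem_Ico] at hi
    have : Good o l (sh i (xa o l k)) (k, 2 * k - i) := by
      refine ⟨by show 1 ≤ 2 * k - i; omega, by show 2 * k - i ≤ k; omega, hk, fun t ht => ?_,
        fun t ht => ?_, ?_, ?_⟩
      · have ht' : t < 2 * k - i := ht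
        show (if (t + i) % (2 * k) < k then o else l) = l
        rw [mod_lt_self (by omega), if_neg (by omega)]
      · have ht' : t < k := ht
        show (if (2 * k - i + t + i) % (2 * k) < k then o else l) = o
        rw [mod_sub_self (by omega) (by omega), if_pos (by omega)]
      · show (if (2 * k - i + k + i) % (2 * k) < k then o else l) = l
        rw [mod_sub_self (by omega) (by omega), if_neg (by omega)]
      · show (if (2 * k - i + k + 1 + i) % (2 * k) < k then o else l) = l
        rw [mod_sub_self (by omega) (by omega), if_neg (by omega)]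
    exact fn_good hol this
  have h2 : ∑ i ∈ Finset.Ico k (2 * k), fn o l (sh i (xa o l k)) = 1 := by
    rw [Finset.sum_congr rfl h1, Finset.sum_const, nsmul_eq_mul, Nat.card_Ico,
      show 2 * k - k = k by omega, mul_one_div, div_self]
    have : 0 < k := by omega
    exact_mod_cast this.ne'
  rw [← h2]
  unfold SS
  apply Finset.sum_le_sum_of_subset_of_nonneg
  · intro i hi
    rw [Finset.mem_Ico] at hi
    exact Finset.mem_range.2 hi.2
  · intro _ _ _; exact fn_nonneg _

lemma SS_nonneg (n : ℕ) (x : ℕ → A) : 0 ≤ SS o l n x := Finset.sum_nonneg fun _ _ => fn_nonneg _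

lemma SS_xc (hol : o ≠ l) {k : ℕ} (hk : 2 ≤ k) : SS o l (3 * k + 3) (xc o l k) ≤ 1/2 := by
  have key : ∀ i ∈ Finset.range (3 * k + 3), i ≠ 3 * k + 2 → fn o l (sh i (xc o l k)) = 0 := by
    intro i hi hne
    rw [Finset.mem_range] at hi
    have hv : ∀ t, i + t < 3 * k + 3 → sh i (xc o l k) t = wc o l k (i + t) := by
      intro t ht
      show wc o l k ((t + i) % (3 * k + 3)) = _
      rw [mod_lt_self (by omega), add_comm]
    by_cases h1 : i < k
    · apply fn_ne hol
      rw [hv 0 (by omega)]
      unfold wc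
      rw [if_pos (by omega), if_pos (by omega)]
      exact hol
    by_cases h2 : i < 2 * k
    · -- run of l's followed by o^k l o
      apply fn_bad
      intro p hp
      have hP : ∀ t < 2 * k - i, sh i (xc o l k) t = l := by
        intro t ht
        rw [hv t (by omega)]
        unfold wc
        rw [if_pos (by omega), if_neg (by omega)]
      have hO : ∀ t < k, sh i (xc o l k) (2 * k - i + t) = o := by
        intro t ht
        rw [hv _ (by omega)]
        unfold wc wb
        rw [if_neg (by omega), if_pos (by omega)]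
      have hp2 : p.2 = 2 * k - i := by
        rcases lt_trichotomy p.2 (2 * k - i) with h | h | h
        · have e1 := hP p.2 h
          have e2 := hp.2.2.2.2.1 0 (by have := hp.2.2.1; omega)
          rw [add_zero] at e2
          exact absurd (e2.symm.trans e1) hol
        · exact h
        · have e1 := hO 0 (by omega)
          have e2 := hp.2.2.2.1 _ h
          rw [add_zero] at e1
          exact absurd (e1.symm.trans e2) hol
      have hL : sh i (xc o l k) (2 * k - i + k) = l := by
        rw [hv _ (by omega)]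
        unfold wc wb
        rw [if_neg (by omega), if_neg (by omega), if_neg (by omega)]
      have hp1 : p.1 = k := by
        rcases lt_trichotomy p.1 k with h | h | h
        · have e1 := hO p.1 h
          have e2 := hp.2.2.2.2.2.1
          rw [hp2] at e2
          exact absurd (e1.symm.trans e2) hol
        · exact h
        · have e1 := hp.2.2.2.2.1 k h
          rw [hp2] at e1
          exact absurd (e1.symm.trans hL) hol
      have e := hp.2.2.2.2.2.2
      rw [hp2, hp1, hv _ (by omega)] at e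
      unfold wc wb at e
      rw [if_neg (by omega), if_neg (by omega), if_pos (by omega)] at e
      exact hol e
    by_cases h3 : i < 3 * k
    · apply fn_ne hol
      rw [hv 0 (by omega)]
      unfold wc wb
      rw [if_neg (by omega), if_pos (by omega)]
      exact hol
    by_cases h4 : i = 3 * k
    · apply fn_bad
      intro p hp
      have e0 : sh i (xc o l k) 1 = o := by
        rw [hv 1 (by omega)]
        unfold wc wb
        rw [if_neg (by omega), if_neg (by omega), if_pos (by omega)]
      have e1 : sh i (xc o l k) 2 = l := by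
        rw [hv 2 (by omega)]
        unfold wc wb
        rw [if_neg (by omega), if_neg (by omega), if_neg (by omega)]
      have hp2 : p.2 = 1 := by
        have h5 := hp.1
        by_contra hne2
        have e2 := hp.2.2.2.1 1 (by omega)
        exact hol (e0.symm.trans e2)
      have e3 := hp.2.2.2.2.1 1 (by have := hp.2.2.1; omega)
      rw [hp2] at e3
      exact hol (e3.symm.trans e1)
    · have h5 : i = 3 * k + 1 := by omega
      apply fn_ne hol
      rw [hv 0 (by omega)]
      unfold wc wb
      rw [if_neg (by omega), if_neg (by omega), if_pos (by omega)]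
      exact hol
  unfold SS
  rw [Finset.sum_eq_single (3 * k + 2) key (by
    intro h; exact absurd (Finset.mem_range.2 (by omega)) h)]
  exact fn_le hol _

lemma agree_ac (o l : A) {k : ℕ} (_hk : 2 ≤ k) : ∀ i < 3 * k, xa o l k i = xc o l k i := by
  intro i hi
  show (if i % (2 * k) < k then o else l) = wc o l k (i % (3 * k + 3))
  rw [mod_lt_self (show i < 3 * k + 3 by omega)]
  unfold wc wb
  by_cases h : i < 2 * k
  · rw [mod_lt_self h, if_pos h]
  · rw [mod_sub_self (by omega) (by omega), if_neg h, if_pos (by omega), if_pos (by omega)]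

lemma agree_bc (o l : A) {k : ℕ} (_hk : 2 ≤ k) :
    ∀ i < 2 * k + 3, xb o l k i = sh (2 * k) (xc o l k) i := by
  intro i hi
  show wb o l k (i % (k + 3)) = wc o l k ((i + 2 * k) % (3 * k + 3))
  by_cases h : i < k + 3
  · rw [mod_lt_self h, mod_lt_self (by omega)]
    unfold wc
    rw [if_neg (by omega), show i + 2 * k - 2 * k = i by omega]
  · rw [mod_sub_self (by omega) (by omega), mod_sub_self (by omega) (by omega)]
    unfold wc wb
    rw [if_pos (by omega), if_pos (by omega), if_pos (by omega)]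

end Pool.Agent.Q67.BW
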